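import Mathlib
import Pool.Agent.Q298.Neck.Link

/-!
# MP_fcaed2_pr, Q1: the limit constant exists

From the helper module `Pool.Agent.Q298.Neck.Link`:

* `Necklace t`: words `Fin (2 * t) → Fin t` in which every symbol occurs exactly twice;
* `Fair a σ`: each of the two thieves (the values of `σ`) gets exactly one bead of every type;
* `SplitsWith a r`: some set of `r` cuts, each between two consecutive beads, and some distribution
  of the resulting intervals gives a fair split;
* `minCuts a`: the least such `r`, that is `X(2, t, 1)` for the necklace `a`.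
-/

open Finset Filter Topology
open Pool.Agent.Q298.Neck

namespace Pool.Agent.Results.MP_fcaed2_pr.LimitExists

open Classical in
/-- There is a constant `c` such that for every `ε > 0` the probability, for the uniformly random
necklace with two beads of each of `t` types, that `|X / t - c| < ε` tends to one. -/
theorem result : ∃ c : ℝ, ∀ ε : ℝ, 0 < ε →
    Tendsto (fun t : ℕ =>
      (#(univ.filter fun a : Necklace t => |(minCuts a.1 : ℝ) / t - c| < ε) : ℝ) /
        Fintype.card (Necklace t)) atTop (𝓝 1) := by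
  obtain ⟨c, hc⟩ := exists_limit
  refine ⟨c, fun ε hε => ?_⟩
  have hlow : ∀ᶠ t : ℕ in atTop, 1 - 512 / ε ^ 2 * (1 / (t : ℝ)) ≤
      (#(univ.filter fun a : Necklace t => |(minCuts a.1 : ℝ) / t - c| < ε) : ℝ) /
        Fintype.card (Necklace t) := by
    rw [Metric.tendsto_atTop] at hc
    obtain ⟨N, hN⟩ := hc (ε / 2) (by positivity)
    filter_upwards [eventually_ge_atTop N, eventually_gt_atTop 0] with t ht ht0
    have htR : (0 : ℝ) < t := by exact_mod_cast ht0
    have h1 := hN t ht
    rw [Real.dist_eq] at h1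
    rw [prob_eq (t := t) (fun x => |(x : ℝ) / t - c| < ε)]
    set f : Equiv.Perm (Fin (2 * t)) → ℝ := fun π => (F (cc (pc (2 * t)) π) (tau (e0 t)) : ℝ)
      with hf
    have hmean : mean f = mX t := rfl
    have hcp : (0 : ℝ) < Fintype.card (Equiv.Perm (Fin (2 * t))) := by
      exact_mod_cast Fintype.card_pos
    have hvar := var_perm (K := 4) (by norm_num) (2 * t) f
      (fun π i j => F_lip (pc_flipLip (2 * t)) (tau_inv (e0 t)) π i j)
    have hch := cheb f (a := ε * t / 2) (B := 4 * 4 ^ 2 * ((2 * t : ℕ) : ℝ)) (by positivity) hvar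
    have hsplit := Finset.card_filter_add_card_filter_not
      (s := (univ : Finset (Equiv.Perm (Fin (2 * t))))) (fun π => |f π / t - c| < ε)
    have hsub : (univ.filter fun π => ¬ (|f π / t - c| < ε)) ⊆
        univ.filter fun π => ε * t / 2 ≤ |f π - mean f| := by
      intro π hπ
      simp only [mem_filter, mem_univ, true_and, not_lt] at hπ ⊢
      rw [hmean]
      have h2 : ε / 2 ≤ |f π / t - mX t / t| := by
        have h3 : |f π / t - c| ≤ |f π / t - mX t / t| + |mX t / t - c| := abs_sub_le _ _ _
        linarith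
      rw [← sub_div, abs_div, abs_of_pos htR, le_div_iff₀ htR] at h2
      linarith
    have h4 : (#(univ.filter fun π => ¬ (|f π / t - c| < ε)) : ℝ) ≤
        4 * 4 ^ 2 * ((2 * t : ℕ) : ℝ) / (ε * t / 2) ^ 2 *
          Fintype.card (Equiv.Perm (Fin (2 * t))) :=
      le_trans (by exact_mod_cast Finset.card_le_card hsub) hch
    have h5 : (#(univ.filter fun π => |f π / t - c| < ε) : ℝ) +
        #(univ.filter fun π => ¬ (|f π / t - c| < ε)) =
        Fintype.card (Equiv.Perm (Fin (2 * t))) := by
      rw [Finset.card_univ] at hsplit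
      exact_mod_cast hsplit
    rw [le_div_iff₀ hcp]
    have h6 : 4 * 4 ^ 2 * ((2 * t : ℕ) : ℝ) / (ε * t / 2) ^ 2 = 512 / ε ^ 2 * (1 / (t : ℝ)) := by
      push_cast
      field_simp
      ring
    rw [h6] at h4
    have h7 : (1 - 512 / ε ^ 2 * (1 / (t : ℝ))) * Fintype.card (Equiv.Perm (Fin (2 * t))) =
        Fintype.card (Equiv.Perm (Fin (2 * t))) -
          512 / ε ^ 2 * (1 / (t : ℝ)) * Fintype.card (Equiv.Perm (Fin (2 * t))) := by ring
    rw [h7]
    linarith
  have hup : ∀ t : ℕ, (#(univ.filter fun a : Necklace t => |(minCuts a.1 : ℝ) / t - c| < ε) : ℝ) /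
        Fintype.card (Necklace t) ≤ 1 := by
    intro t
    refine div_le_one_of_le₀ ?_ (by positivity)
    exact_mod_cast Finset.card_le_univ _
  have hlim : Tendsto (fun t : ℕ => 1 - 512 / ε ^ 2 * (1 / (t : ℝ))) atTop (𝓝 1) := by
    have := (tendsto_one_div_atTop_nhds_zero_nat (𝕜 := ℝ)).const_mul (512 / ε ^ 2)
    have h2 := this.const_sub 1
    simpa using h2
  exact tendsto_of_tendsto_of_tendsto_of_le_of_le' hlim tendsto_const_nhds hlow
    (Eventually.of_forall hup)

end Pool.Agent.Results.MP_fcaed2_pr.LimitExists
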